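import Pool.Agent.J6H61.UT.Basic

set_option autoImplicit false
set_option linter.unusedVariables false

/-! # Averaging over all the constant terms but one -/

namespace Pool.Agent.J6H61.UT

open Finset

open scoped Classical

/-- the vectors with entries in the sets `R i`, `i ≠ j`, and with entry `0` at `j` -/
noncomputable def FF {k : ℕ} (R : Fin k → Finset ℕ) (j : Fin k) : Finset (Fin k → ℕ) :=
  Fintype.piFinset (Function.update R j {0})

/-- the `n ∈ T` with `Q i n (f i)` for all `i ≠ j` -/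
noncomputable def SS {k : ℕ} (Q : Fin k → ℕ → ℕ → Prop) (T : Finset ℕ) (j : Fin k) (f : Fin k → ℕ) :
    Finset ℕ :=
  T.filter (fun n => ∀ i, i ≠ j → Q i n (f i))

theorem mem_SS {k : ℕ} {Q : Fin k → ℕ → ℕ → Prop} {T : Finset ℕ} {j : Fin k} {f : Fin k → ℕ} {n : ℕ} :
    n ∈ SS Q T j f ↔ n ∈ T ∧ ∀ i, i ≠ j → Q i n (f i) := by
  rw [SS, mem_filter]

theorem FF_card {k : ℕ} (R : Fin k → Finset ℕ) (j : Fin k) :
    (FF R j).card = ∏ i ∈ univ.erase j, (R i).card := by
  rw [FF, Fintype.card_piFinset, ← Finset.mul_prod_erase univ _ (mem_univ j), Function.update_self,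
    card_singleton, one_mul]
  apply Finset.prod_congr rfl
  intro i hi
  rw [Function.update_of_ne (Finset.ne_of_mem_erase hi)]

theorem FF_mem {k : ℕ} {R : Fin k → Finset ℕ} {j : Fin k} {f : Fin k → ℕ} (hf : f ∈ FF R j) :
    f j = 0 ∧ ∀ i, i ≠ j → f i ∈ R i := by
  rw [FF, Fintype.mem_piFinset] at hf
  constructor
  · have := hf j
    rw [Function.update_self, mem_singleton] at this
    exact this
  · intro i hi
    have := hf i
    rw [Function.update_of_ne hi] at this
    exact this

theorem sum_SS {k : ℕ} (R : Fin k → Finset ℕ) (j : Fin k) (Q : Fin k → ℕ → ℕ → Prop) (T : Finset ℕ)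
    (u : Fin k → ℝ) (hu : ∀ i, ∀ n ∈ T, (((R i).filter (Q i n)).card : ℝ) ≤ u i) :
    (∑ f ∈ FF R j, ((SS Q T j f).card : ℝ)) ≤ T.card * ∏ i ∈ univ.erase j, u i := by
  have h1 : (∑ f ∈ FF R j, ((SS Q T j f).card : ℝ)) =
      ∑ n ∈ T, (((FF R j).filter (fun f => ∀ i, i ≠ j → Q i n (f i))).card : ℝ) := by
    have e1 : ∀ f ∈ FF R j, ((SS Q T j f).card : ℝ) =
        ∑ n ∈ T, if (∀ i, i ≠ j → Q i n (f i)) then (1 : ℝ) else 0 := by
      intro f _
      rw [SS, card_filter]
      push_cast
      rfl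
    rw [Finset.sum_congr rfl e1, Finset.sum_comm]
    apply Finset.sum_congr rfl
    intro n _
    rw [card_filter]
    push_cast
    rfl
  rw [h1]
  have h2 : ∀ n ∈ T, (((FF R j).filter (fun f => ∀ i, i ≠ j → Q i n (f i))).card : ℝ) ≤
      ∏ i ∈ univ.erase j, u i := by
    intro n hn
    have e1 : (FF R j).filter (fun f => ∀ i, i ≠ j → Q i n (f i)) ⊆
        FF (fun i => (R i).filter (Q i n)) j := by
      intro f hf
      rw [mem_filter] at hf
      obtain ⟨h3, h4⟩ := FF_mem hf.1
      rw [FF, Fintype.mem_piFinset]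
      intro i
      by_cases hi : i = j
      · subst hi
        rw [Function.update_self, mem_singleton]
        exact h3
      · rw [Function.update_of_ne hi, mem_filter]
        exact ⟨h4 i hi, hf.2 i hi⟩
    have e2 := Finset.card_le_card e1
    rw [FF_card] at e2
    have e3 : (((FF R j).filter (fun f => ∀ i, i ≠ j → Q i n (f i))).card : ℝ) ≤
        ∏ i ∈ univ.erase j, (((R i).filter (Q i n)).card : ℝ) := by
      exact_mod_cast e2
    refine e3.trans ?_
    apply Finset.prod_le_prod
    · intro i _; exact Nat.cast_nonneg _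
    · intro i _; exact hu i n hn
  calc _ ≤ ∑ n ∈ T, ∏ i ∈ univ.erase j, u i := Finset.sum_le_sum h2
    _ = _ := by rw [Finset.sum_const, nsmul_eq_mul]

/-- for at least half of the vectors few `n ∈ T` remain -/
theorem half {k : ℕ} (R : Fin k → Finset ℕ) (j : Fin k) (Q : Fin k → ℕ → ℕ → Prop) (T : Finset ℕ)
    (u : Fin k → ℝ) (hu : ∀ i, ∀ n ∈ T, (((R i).filter (Q i n)).card : ℝ) ≤ u i)
    (hu0 : ∀ i, 0 ≤ u i) :
    ∃ G ⊆ FF R j, ((FF R j).card : ℝ) ≤ 2 * G.card ∧
      ∀ f ∈ G, ((SS Q T j f).card : ℝ) * (FF R j).card ≤ 2 * T.card * ∏ i ∈ univ.erase j, u i := by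
  have hs := sum_SS R j Q T u hu
  set U : ℝ := T.card * ∏ i ∈ univ.erase j, u i with hU
  have hU0 : 0 ≤ U := mul_nonneg (Nat.cast_nonneg _) (Finset.prod_nonneg (fun i _ => hu0 i))
  set F := FF R j with hF
  set G := F.filter (fun f => ((SS Q T j f).card : ℝ) * F.card ≤ 2 * U) with hG
  refine ⟨G, filter_subset _ _, ?_, ?_⟩
  · by_contra hcon
    push Not at hcon
    set H := F.filter (fun f => ¬ ((SS Q T j f).card : ℝ) * F.card ≤ 2 * U) with hH
    have hGH : (F.card : ℝ) = G.card + H.card := by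
      have : G.card + H.card = F.card := by
        rw [hG, hH]
        exact Finset.card_filter_add_card_filter_not _
      exact_mod_cast this.symm
    have hFpos : (0 : ℝ) < F.card := by
      have : (0 : ℝ) ≤ G.card := Nat.cast_nonneg _
      linarith
    have hHpos : 0 < H.card := by
      have : (0 : ℝ) < H.card := by
        have : (0 : ℝ) ≤ G.card := Nat.cast_nonneg _
        linarith
      exact_mod_cast this
    have h1 : (H.card : ℝ) * (2 * U) < ∑ f ∈ H, ((SS Q T j f).card : ℝ) * F.card := by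
      have : ∑ f ∈ H, (2 * U) < ∑ f ∈ H, ((SS Q T j f).card : ℝ) * F.card := by
        apply Finset.sum_lt_sum_of_nonempty (Finset.card_pos.1 hHpos)
        intro f hf
        rw [hH, mem_filter] at hf
        exact not_le.1 hf.2
      rwa [Finset.sum_const, nsmul_eq_mul] at this
    have h2 : ∑ f ∈ H, ((SS Q T j f).card : ℝ) * F.card ≤ U * F.card := by
      rw [← Finset.sum_mul]
      apply mul_le_mul_of_nonneg_right _ hFpos.le
      refine le_trans ?_ hs
      apply Finset.sum_le_sum_of_subset_of_nonneg (filter_subset _ _)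
      intro f _ _
      exact Nat.cast_nonneg _
    nlinarith
  · intro f hf
    rw [hG, mem_filter] at hf
    have := hf.2
    rw [hU] at this
    linarith

/-- the systems without a solution in `T` -/
noncomputable def Bad {k : ℕ} (a : Fin k → ℕ) (T : Finset ℕ) : Finset (Fin k → ℕ) :=
  (Fintype.piFinset (fun i => Finset.Ico 1 (a i))).filter (fun b =>
    Function.Injective (fun i => (a i, b i)) ∧ Admissible a b ∧
      ∀ n ∈ T, ∃ i, ¬ (a i * n + b i).Prime)

theorem W_lt {k a j b : ℕ} (ha : 2 ≤ a) (hb : b ∈ W k a j) :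
    1 ≤ b ∧ b < a ∧ Nat.Coprime b (a * k.factorial) := by
  rw [W, mem_filter, mem_Icc] at hb
  obtain ⟨⟨h1, h2⟩, -, -, h3⟩ := hb
  refine ⟨h1, lt_of_le_of_ne h2 ?_, h3⟩
  rintro rfl
  have h4 : b ∣ Nat.gcd b (b * k.factorial) := Nat.dvd_gcd dvd_rfl (dvd_mul_right _ _)
  rw [h3] at h4
  have := Nat.dvd_one.1 h4
  omega

theorem bad_count {k : ℕ} (a : Fin k → ℕ) (ha : ∀ i, 2 ≤ a i) (T : Finset ℕ) (j : Fin k)
    (G : Finset (Fin k → ℕ)) (hG : G ⊆ FF (fun i => W k (a i) i) j)
    (V : (Fin k → ℕ) → Finset ℕ) (hV : ∀ f, V f ⊆ W k (a j) j)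
    (hV2 : ∀ f ∈ G, ∀ b ∈ V f, ∀ n ∈ SS (fun i n b => (a i * n + b).Prime) T j f,
      ¬ (a j * n + b).Prime) :
    ∑ f ∈ G, (V f).card ≤ (Bad a T).card := by
  rw [← Finset.card_sigma]
  apply Finset.card_le_card_of_injOn (fun x : (Σ _ : (Fin k → ℕ), ℕ) => Function.update x.1 j x.2)
  · rintro ⟨f, b⟩ hfb
    rw [Finset.mem_coe, mem_sigma] at hfb
    obtain ⟨hf, hb⟩ := hfb
    simp only at hf hb
    obtain ⟨h1, h2⟩ := FF_mem (hG hf)
    have hW : ∀ i, Function.update f j b i ∈ W k (a i) i := by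
      intro i
      by_cases hi : i = j
      · subst hi
        rw [Function.update_self]
        exact hV f hb
      · rw [Function.update_of_ne hi]
        exact h2 i hi
    have hWl := fun i => W_lt (ha i) (hW i)
    rw [Finset.mem_coe]
    show Function.update f j b ∈ Bad a T
    rw [Bad, mem_filter, Fintype.mem_piFinset]
    refine ⟨fun i => mem_Ico.2 ⟨(hWl i).1, (hWl i).2.1⟩, ?_, ?_, ?_⟩
    · intro i l hil
      simp only [Prod.mk.injEq] at hil
      have h3 := hW i
      rw [hil.1, hil.2] at h3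
      exact Fin.ext (W_disj h3 (hW l))
    · exact adm a _ (fun i => ⟨(hWl i).1, (hWl i).2.1⟩) (fun i => (hWl i).2.2)
    · intro n hn
      by_cases hS : n ∈ SS (fun i n b => (a i * n + b).Prime) T j f
      · refine ⟨j, ?_⟩
        rw [Function.update_self]
        exact hV2 f hf b hb n hS
      · rw [mem_SS] at hS
        have : ∃ i, i ≠ j ∧ ¬ (a i * n + f i).Prime := by
          by_contra hcon
          push Not at hcon
          exact hS ⟨hn, hcon⟩
        obtain ⟨i, hi, hi2⟩ := this
        refine ⟨i, ?_⟩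
        rw [Function.update_of_ne hi]
        exact hi2
  · rintro ⟨f, b⟩ hfb ⟨f', b'⟩ hfb' hE
    rw [Finset.mem_coe, mem_sigma] at hfb hfb'
    simp only at hE hfb hfb'
    have h1 := (FF_mem (hG hfb.1)).1
    have h2 := (FF_mem (hG hfb'.1)).1
    have hb : b = b' := by
      have := congrFun hE j
      rw [Function.update_self, Function.update_self] at this
      exact this
    have hf : f = f' := by
      funext i
      by_cases hi : i = j
      · subst hi
        rw [h1, h2]
      · have := congrFun hE i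
        rw [Function.update_of_ne hi, Function.update_of_ne hi] at this
        exact this
    rw [hf, hb]

end Pool.Agent.J6H61.UT
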