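import Pool.Agent.N837.LP.FinG
import Pool.Agent.Helper601.BT

set_option autoImplicit false
set_option linter.unusedVariables false

/-! # Systems of linear forms without small prime values: preparations -/

namespace Pool.Agent.J6H61.UT

open Finset Filter Pool.Agent.N837.LP

open scoped Classical

/-- the set of linear forms `a i * x + b i` is admissible in the sense of the problem -/
def Admissible {k : ℕ} (a b : Fin k → ℕ) : Prop :=
  (∀ i, 1 ≤ b i ∧ b i < a i) ∧ ∀ p : ℕ, p.Prime → ∃ n : ℤ, ∀ i, ¬ (p : ℤ) ∣ a i * n + b i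

/-- coprimality with `a i` and with `k!` makes a system admissible -/
theorem adm {k : ℕ} (a b : Fin k → ℕ) (hb : ∀ i, 1 ≤ b i ∧ b i < a i)
    (hc : ∀ i, Nat.Coprime (b i) (a i * k.factorial)) : Admissible a b := by
  refine ⟨hb, fun p hp => ?_⟩
  by_cases hpk : p ≤ k
  · refine ⟨0, fun i hdvd => ?_⟩
    rw [mul_zero, zero_add] at hdvd
    have h1 : p ∣ b i := Int.natCast_dvd_natCast.1 hdvd
    have h2 : p ∣ k.factorial := (Nat.Prime.dvd_factorial hp).2 hpk
    have h3 := Nat.dvd_gcd h1 (h2.mul_left (a i))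
    rw [hc i] at h3
    exact hp.one_lt.ne' (Nat.dvd_one.1 h3)
  · push Not at hpk
    set B : Fin k → Finset ℕ := fun i => (range p).filter (fun n => p ∣ a i * n + b i) with hB
    have hB1 : ∀ i, (B i).card ≤ 1 := by
      intro i
      rw [Finset.card_le_one]
      intro x hx y hy
      rw [hB] at hx hy
      simp only [mem_filter, mem_range] at hx hy
      have hpa : ¬ p ∣ a i := by
        intro h
        have h1 : p ∣ b i := (Nat.dvd_add_right (h.mul_right x)).1 hx.2
        have h3 := Nat.dvd_gcd h1 (h.mul_right k.factorial)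
        rw [hc i] at h3
        exact hp.one_lt.ne' (Nat.dvd_one.1 h3)
      have h4 : (p : ℤ) ∣ (a i : ℤ) * ((x : ℤ) - y) := by
        have e1 : ((a i * x + b i : ℕ) : ℤ) - ((a i * y + b i : ℕ) : ℤ) = (a i : ℤ) * ((x : ℤ) - y) := by
          push_cast; ring
        rw [← e1]
        exact dvd_sub (Int.natCast_dvd_natCast.2 hx.2) (Int.natCast_dvd_natCast.2 hy.2)
      rcases (Nat.prime_iff_prime_int.1 hp).dvd_or_dvd h4 with h5 | h5
      · exact absurd (Int.natCast_dvd_natCast.1 h5) hpa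
      · have h6 : ((x : ℤ) - y) = 0 := by
          apply Int.eq_zero_of_abs_lt_dvd h5
          rw [abs_lt]
          omega
        omega
    have h1 : (univ.biUnion B).card ≤ k := by
      refine (Finset.card_biUnion_le).trans ?_
      calc ∑ i : Fin k, (B i).card ≤ ∑ i : Fin k, 1 := Finset.sum_le_sum (fun i _ => hB1 i)
        _ = k := by simp
    have h2 : ∃ n ∈ range p, n ∉ univ.biUnion B := by
      by_contra hcon
      push Not at hcon
      have h3 : range p ⊆ univ.biUnion B := hcon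
      have h4 := Finset.card_le_card h3
      rw [card_range] at h4
      omega
    obtain ⟨n, hn, hnB⟩ := h2
    refine ⟨n, fun i hdvd => hnB ?_⟩
    rw [mem_biUnion]
    refine ⟨i, mem_univ _, ?_⟩
    rw [hB]
    simp only [mem_filter]
    exact ⟨hn, by exact_mod_cast hdvd⟩

/-- few prime values for a single form -/
theorem bt : ∃ C : ℝ, 1 ≤ C ∧ ∀ (a n : ℕ), 2 ≤ a →
    (((Finset.Icc 1 a).filter (fun b => (a * n + b).Prime)).card : ℝ) ≤ C * a / Real.log a := by
  obtain ⟨C, hC, h⟩ := Pool.Agent.Helper601.brun_titchmarsh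
  refine ⟨C, hC, fun a n ha => ?_⟩
  refine le_trans ?_ (h (a * n + 1) 1 a ha (Or.inl rfl))
  norm_cast
  apply Finset.card_le_card_of_injOn (fun b => b - 1)
  · intro b hb
    rw [Finset.mem_coe, mem_filter, mem_Icc] at hb
    rw [Finset.mem_coe, mem_filter, mem_range]
    have : a * n + 1 + (b - 1) * 1 = a * n + b := by omega
    refine ⟨by show b - 1 < a; omega, ?_⟩
    show (a * n + 1 + (b - 1) * 1).Prime
    rw [this]
    exact hb.2
  · intro x hx y hy hxy
    rw [Finset.mem_coe, mem_filter, mem_Icc] at hx hy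
    simp only at hxy
    omega

/-- the window number `j` of the numbers up to `a`, prime to `a k!` -/
noncomputable def W (k a j : ℕ) : Finset ℕ :=
  (Finset.Icc 1 a).filter (fun b => ((j : ℝ) + 1) * ((a : ℝ) / (k + 1)) < b ∧
    (b : ℝ) ≤ ((j : ℝ) + 1) * ((a : ℝ) / (k + 1)) + (a : ℝ) / (k + 1) ∧
    Nat.Coprime b (a * k.factorial))

/-- the part of the window where all `a * n + b`, `n ∈ S`, are composite -/
noncomputable def WS (k a j : ℕ) (S : Finset ℕ) : Finset ℕ :=
  (W k a j).filter (fun b => ∀ n ∈ S, ¬ (a * n + b).Prime)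

theorem W_disj {k a i j b : ℕ} (hi : b ∈ W k a i) (hj : b ∈ W k a j) : i = j := by
  rw [W, mem_filter, mem_Icc] at hi hj
  obtain ⟨⟨h1, h1'⟩, h2, h3, -⟩ := hi
  obtain ⟨-, h4, h5, -⟩ := hj
  have ha : (0 : ℝ) < (a : ℝ) / (k + 1) := by
    have : (0 : ℝ) < a := by
      have : 0 < a := by omega
      exact_mod_cast this
    positivity
  set x : ℝ := (a : ℝ) / (k + 1) with hx
  rcases lt_trichotomy i j with h | h | h
  · exfalso
    have h6 : (i : ℝ) + 1 ≤ j := by exact_mod_cast h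
    nlinarith
  · exact h
  · exfalso
    have h6 : (j : ℝ) + 1 ≤ i := by exact_mod_cast h
    nlinarith

/-- the totient of `a k!` -/
theorem tot_mul (a n : ℕ) (ha : 0 < a) (hn : 0 < n) :
    ((a.totient : ℝ) / a) * ((n.totient : ℝ) / n) ≤ (((a * n).totient : ℕ) : ℝ) / ((a * n : ℕ) : ℝ) := by
  have h1 : a.totient * n.totient ≤ (a * n).totient := Nat.totient_super_multiplicative a n
  have h2 : ((a.totient : ℝ)) * n.totient ≤ ((a * n).totient : ℝ) := by exact_mod_cast h1
  have ha' : (0 : ℝ) < a := by exact_mod_cast ha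
  have hn' : (0 : ℝ) < n := by exact_mod_cast hn
  rw [div_mul_div_comm]
  push_cast
  exact div_le_div_of_nonneg_right h2 (by positivity)

/-- the count in a window -/
theorem window (k : ℕ) : ∃ C₀ : ℝ, 0 ≤ C₀ ∧ ∀ K B : ℝ, 1 ≤ K → 1 ≤ B → ∃ a₀ : ℕ, ∀ a : ℕ, a₀ ≤ a →
    2 ≤ a ∧ ∀ j : ℕ, j < k → ∀ S : Finset ℕ, (∀ n ∈ S, (n : ℝ) ≤ (a : ℝ) ^ B) →
    (S.card : ℝ) ≤ K * (((a.totient : ℝ) / a) * ((k.factorial.totient : ℝ) / k.factorial)) *
      (Real.log a / 2) →
    ((a.totient : ℝ) / a) * ((k.factorial.totient : ℝ) / k.factorial) * ((a : ℝ) / (k + 1)) *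
      Real.exp (-Real.exp (16 * K + C₀)) ≤ ((WS k a j S).card : ℝ) := by
  obtain ⟨C₀, hC₀, hG⟩ := mainG (1 / 4) (by norm_num)
  refine ⟨C₀, hC₀, fun K B hK hB => ?_⟩
  obtain ⟨X₁, hU⟩ := hG K (2 * (B + 1)) hK (by linarith)
  have hk1 : (1 : ℝ) ≤ (k : ℝ) + 1 := by
    have : (0 : ℝ) ≤ k := Nat.cast_nonneg k
    linarith
  obtain ⟨a₁, ha₁⟩ := exists_nat_ge ((k + 1 : ℝ) * max X₁ 1)
  obtain ⟨a₂, ha₂⟩ : ∃ a₂ : ℕ, a₂ = (k + 1) ^ 2 + k.factorial ^ 2 + 2 := ⟨_, rfl⟩
  refine ⟨max a₁ a₂, fun a ha => ?_⟩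
  have hA1 : a₁ ≤ a := (le_max_left _ _).trans ha
  have hA2 : a₂ ≤ a := (le_max_right _ _).trans ha
  have ha2 : 2 ≤ a := by
    have : 2 ≤ a₂ := by rw [ha₂]; omega
    omega
  refine ⟨ha2, fun j hj S hS hSc => ?_⟩
  set X : ℝ := (a : ℝ) / (k + 1) with hX
  have haR : (2 : ℝ) ≤ a := by exact_mod_cast ha2
  have ha0 : (0 : ℝ) < a := by linarith
  have hX0 : 0 < X := by positivity
  have hXX : max X₁ 1 ≤ X := by
    rw [hX, le_div_iff₀ (by linarith)]
    have h1 : (a₁ : ℝ) ≤ a := by exact_mod_cast hA1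
    linarith
  have hXX1 : X₁ ≤ X := (le_max_left _ _).trans hXX
  have hXone : 1 ≤ X := (le_max_right _ _).trans hXX
  have ha2R : ((k : ℝ) + 1) ^ 2 ≤ a ∧ (k.factorial : ℝ) ^ 2 ≤ a := by
    constructor
    · have : (k + 1) ^ 2 ≤ a := by
        have : (k + 1) ^ 2 ≤ a₂ := by rw [ha₂]; omega
        omega
      exact_mod_cast this
    · have : k.factorial ^ 2 ≤ a := by
        have : k.factorial ^ 2 ≤ a₂ := by rw [ha₂]; omega
        omega
      exact_mod_cast this
  -- √a ≤ X
  have hsX : √(a : ℝ) ≤ X := by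
    rw [hX, le_div_iff₀ (by linarith)]
    have h1 : (k : ℝ) + 1 ≤ √(a : ℝ) := Real.le_sqrt_of_sq_le ha2R.1
    have h2 : √(a : ℝ) * √(a : ℝ) = a := Real.mul_self_sqrt ha0.le
    nlinarith [Real.sqrt_nonneg (a : ℝ)]
  have haX : (a : ℝ) ≤ X ^ 2 := by
    have h2 : √(a : ℝ) * √(a : ℝ) = a := Real.mul_self_sqrt ha0.le
    nlinarith [Real.sqrt_nonneg (a : ℝ)]
  have haX' : (a : ℝ) ≤ X ^ (2 : ℝ) := by
    rw [show (2 : ℝ) = ((2 : ℕ) : ℝ) by norm_num, Real.rpow_natCast]
    exact haX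
  have hapow : ∀ s : ℝ, 0 ≤ s → (a : ℝ) ^ s ≤ X ^ (2 * s) := by
    intro s hs
    calc (a : ℝ) ^ s ≤ (X ^ (2 : ℝ)) ^ s := Real.rpow_le_rpow ha0.le haX' hs
      _ = X ^ (2 * s) := by rw [← Real.rpow_mul hX0.le]
  have hlogX : Real.log a / 2 ≤ Real.log X := by
    have h1 : Real.log √(a : ℝ) = Real.log a / 2 := Real.log_sqrt ha0.le
    rw [← h1]
    exact Real.log_le_log (Real.sqrt_pos.2 ha0) hsX
  have hloga : 0 < Real.log a := Real.log_pos (by linarith)
  have hfac : 0 < k.factorial := Nat.factorial_pos k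
  have hfacR : (1 : ℝ) ≤ k.factorial := by exact_mod_cast hfac
  set D : ℕ := a * k.factorial with hD
  have hDpos : 0 < D := Nat.mul_pos (by omega) hfac
  have htot := tot_mul a k.factorial (by omega) hfac
  rw [← hD] at htot
  have hDle : (D : ℝ) ≤ X ^ (2 * (B + 1)) := by
    refine le_trans ?_ (hapow (B + 1) (by linarith))
    have h1 : (k.factorial : ℝ) ≤ a := by nlinarith [ha2R.2]
    have h2 : (D : ℝ) ≤ (a : ℝ) ^ (2 : ℝ) := by
      rw [hD, show (2 : ℝ) = ((2 : ℕ) : ℝ) by norm_num, Real.rpow_natCast]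
      push_cast
      nlinarith
    exact h2.trans (Real.rpow_le_rpow_of_exponent_le (by linarith) (by linarith))
  have hmain := hU X hXX1 {n // n ∈ S} (fun _ => 1) (fun n => ((a * n.1 : ℕ) : ℤ)) D hDpos hDle
    (fun _ => one_ne_zero) (fun _ => by
      rw [Int.cast_one, abs_one]
      exact Real.one_le_rpow hXone (by linarith))
    (fun n => by
      have h1 := hS n.1 n.2
      rw [Int.cast_natCast, abs_of_nonneg (Nat.cast_nonneg _)]
      push_cast
      calc (a : ℝ) * n.1 ≤ (a : ℝ) * (a : ℝ) ^ B := mul_le_mul_of_nonneg_left h1 ha0.le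
        _ = (a : ℝ) ^ (B + 1) := by
            rw [Real.rpow_add_one ha0.ne']; ring
        _ ≤ X ^ (2 * (B + 1)) := hapow _ (by linarith))
    (fun i l hil h => hil (Subtype.ext (by
      have h1 : ((a * l.1 : ℕ) : ℤ) = ((a * i.1 : ℕ) : ℤ) := by linarith
      have h2 : a * l.1 = a * i.1 := by exact_mod_cast h1
      exact (Nat.eq_of_mul_eq_mul_left (by omega) h2).symm)))
    (by
      simp only [Int.natAbs_one, Nat.cast_one, Nat.totient_one, div_one, Finset.sum_const,
        Finset.card_univ, Fintype.card_coe, nsmul_eq_mul, mul_one]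
      refine hSc.trans ?_
      have h0 : 0 ≤ ((a.totient : ℝ) / a) * ((k.factorial.totient : ℝ) / k.factorial) := by positivity
      apply mul_le_mul _ hlogX (by positivity) (by positivity)
      exact mul_le_mul_of_nonneg_left htot (by linarith)) ((((j : ℝ) + 1)) * X)
  have hstep : ((RG (((j : ℝ) + 1) * X) X (X ^ (1 / 4 : ℝ)) D (fun _ : {n // n ∈ S} => 1)
      (fun n => ((a * n.1 : ℕ) : ℤ))).ncard : ℝ) ≤ ((WS k a j S).card : ℝ) := by
    suffices hgoal : (RG (((j : ℝ) + 1) * X) X (X ^ (1 / 4 : ℝ)) D (fun _ : {n // n ∈ S} => 1)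
      (fun n => ((a * n.1 : ℕ) : ℤ))).ncard ≤ ((WS k a j S : Finset ℕ) : Set ℕ).ncard by
      rw [Set.ncard_coe_finset] at hgoal
      exact_mod_cast hgoal
    refine Set.ncard_le_ncard_of_injOn (fun z : ℤ => z.toNat) ?_ ?_ (Finset.finite_toSet _)
    · intro z hz
      obtain ⟨h1, h2, h3, h4⟩ := hz
      have hj0 : (0 : ℝ) ≤ j := Nat.cast_nonneg j
      have hXz : X < z := by
        have : X ≤ ((j : ℝ) + 1) * X := by nlinarith
        linarith
      have hz0 : (0 : ℝ) < z := by linarith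
      have hz0' : 0 < z := by exact_mod_cast hz0
      have hzn : ((z.toNat : ℕ) : ℤ) = z := Int.toNat_of_nonneg hz0'.le
      have hznR : ((z.toNat : ℕ) : ℝ) = z := by exact_mod_cast hzn
      have hcop : Nat.Coprime z.toNat D := by
        rw [← Nat.isCoprime_iff_coprime, hzn]
        exact h3
      have hza : (z.toNat : ℝ) ≤ a := by
        rw [hznR]
        have hjk : (j : ℝ) + 1 ≤ k := by exact_mod_cast hj
        have : ((j : ℝ) + 1) * X + X ≤ a := by
          have e1 : ((k : ℝ) + 1) * X = a := by rw [hX]; field_simp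
          nlinarith
        linarith
      rw [Finset.mem_coe, WS, mem_filter, W, mem_filter, mem_Icc]
      refine ⟨⟨⟨by omega, by exact_mod_cast hza⟩, by rw [hznR]; exact h1, by rw [hznR]; exact h2,
        hcop⟩, ?_⟩
      intro n hn hpr
      obtain ⟨l, hl, hl1, -, hl3⟩ := h4 ⟨n, hn⟩
      have e1 : (1 : ℤ) * z + ((a * n : ℕ) : ℤ) = ((a * n + z.toNat : ℕ) : ℤ) := by
        push_cast
        rw [hzn]
        ring
      have h5 : l ∣ a * n + z.toNat := by
        have : (l : ℤ) ∣ ((a * n + z.toNat : ℕ) : ℤ) := by rw [← e1]; exact hl3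
        exact_mod_cast this
      have h6 := (Nat.prime_dvd_prime_iff_eq hl hpr).1 h5
      have h7 : X < (l : ℝ) := by
        rw [h6]
        push_cast
        rw [hznR]
        have : (0 : ℝ) ≤ (a : ℝ) * n := by positivity
        linarith
      have h8 : X ^ (1 / 4 : ℝ) ≤ X := by
        calc X ^ (1 / 4 : ℝ) ≤ X ^ (1 : ℝ) := Real.rpow_le_rpow_of_exponent_le hXone (by norm_num)
          _ = X := Real.rpow_one X
      linarith
    · intro x hx y hy hxy
      have hj0 : (0 : ℝ) ≤ j := Nat.cast_nonneg j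
      have e1 : (0 : ℝ) < x := by
        have : X ≤ ((j : ℝ) + 1) * X := by nlinarith
        linarith [hx.1]
      have e2 : (0 : ℝ) < y := by
        have : X ≤ ((j : ℝ) + 1) * X := by nlinarith
        linarith [hy.1]
      have e3 : 0 < x := by exact_mod_cast e1
      have e4 : 0 < y := by exact_mod_cast e2
      simp only at hxy
      omega
  refine le_trans ?_ (hmain.trans hstep)
  have h0 : 0 ≤ X * Real.exp (-Real.exp (16 * K + C₀)) := by positivity
  calc ((a.totient : ℝ) / a) * ((k.factorial.totient : ℝ) / k.factorial) * X *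
        Real.exp (-Real.exp (16 * K + C₀)) =
      ((a.totient : ℝ) / a) * ((k.factorial.totient : ℝ) / k.factorial) *
        (X * Real.exp (-Real.exp (16 * K + C₀))) := by ring
    _ ≤ ((D.totient : ℝ) / D) * (X * Real.exp (-Real.exp (16 * K + C₀))) :=
        mul_le_mul_of_nonneg_right htot h0
    _ = _ := by ring

end Pool.Agent.J6H61.UT
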