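import Pool.Agent.J6H61.UT.Avg

set_option autoImplicit false
set_option linter.unusedVariables false

/-! # A positive proportion of the systems has no small solution -/

namespace Pool.Agent.J6H61.UT

open Finset

open scoped Classical

theorem WS_sub (k a j : ℕ) (S : Finset ℕ) : WS k a j S ⊆ W k a j := filter_subset _ _

theorem WS_empty (k a j : ℕ) : WS k a j ∅ = W k a j := by
  rw [WS, Finset.filter_true_of_mem]
  intro b _ n hn
  exact absurd hn (by simp)

/-- lower bound for the windows and the constants -/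
theorem window_card (k : ℕ) : ∃ c₁ : ℝ, 0 < c₁ ∧ c₁ ≤ 1 ∧
    c₁ ≤ ((k.factorial.totient : ℝ) / k.factorial) / (k + 1) ∧ ∃ a₀ : ℕ, ∀ a : ℕ, a₀ ≤ a →
    ∀ j : ℕ, j < k → c₁ * (a.totient : ℝ) ≤ ((W k a j).card : ℝ) := by
  obtain ⟨C₀, hC₀, h⟩ := window k
  obtain ⟨a₀, h⟩ := h 1 1 le_rfl le_rfl
  have hfac : 0 < k.factorial := Nat.factorial_pos k
  have hfacR : (0 : ℝ) < k.factorial := by exact_mod_cast hfac
  have htot : (0 : ℝ) < k.factorial.totient := by exact_mod_cast Nat.totient_pos.2 hfac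
  have htot1 : ((k.factorial.totient : ℝ) / k.factorial) ≤ 1 := by
    rw [div_le_one hfacR]
    exact_mod_cast Nat.totient_le _
  have hk1 : (1 : ℝ) ≤ (k : ℝ) + 1 := by
    have : (0 : ℝ) ≤ k := Nat.cast_nonneg k
    linarith
  have hE1 : Real.exp (-Real.exp (16 * 1 + C₀)) ≤ 1 := by
    rw [Real.exp_le_one_iff]
    have := Real.exp_pos (16 * 1 + C₀)
    linarith
  have hE0 := Real.exp_pos (-Real.exp (16 * 1 + C₀))
  have hτ : 0 < ((k.factorial.totient : ℝ) / k.factorial) / (k + 1) := by positivity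
  have hτ1 : ((k.factorial.totient : ℝ) / k.factorial) / (k + 1) ≤ 1 := by
    rw [div_le_one (by linarith)]
    linarith
  refine ⟨((k.factorial.totient : ℝ) / k.factorial) / (k + 1) * Real.exp (-Real.exp (16 * 1 + C₀)),
    by positivity, ?_, ?_, a₀, fun a ha j hj => ?_⟩
  · exact mul_le_one₀ hτ1 hE0.le hE1
  · exact mul_le_of_le_one_right hτ.le hE1
  · obtain ⟨ha2, h'⟩ := h a ha
    have haR : (0 : ℝ) < a := by
      have : 0 < a := by omega
      exact_mod_cast this
    have h1 := h' j hj ∅ (by simp) (by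
      rw [card_empty, Nat.cast_zero]
      have : 0 ≤ Real.log a := Real.log_nonneg (by
        have : 1 ≤ a := by omega
        exact_mod_cast this)
      positivity)
    rw [WS_empty] at h1
    refine le_trans (le_of_eq ?_) h1
    field_simp

theorem const_ineq (κ C₀ v K : ℝ) (hκ : 0 ≤ κ) (hC₀ : 0 ≤ C₀) (hv : 0 ≤ v) (hK : 1 ≤ K) :
    v + Real.exp (16 * (κ * K) + C₀) ≤ Real.exp ((16 * κ + C₀ + v) * K) := by
  have h1 : 16 * (κ * K) + C₀ + v ≤ (16 * κ + C₀ + v) * K := by nlinarith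
  have h2 : Real.exp (16 * (κ * K) + C₀ + v) = Real.exp (16 * (κ * K) + C₀) * Real.exp v :=
    Real.exp_add _ _
  have h3 : 1 ≤ Real.exp (16 * (κ * K) + C₀) := Real.one_le_exp (by positivity)
  have h4 : v + 1 ≤ Real.exp v := Real.add_one_le_exp v
  calc v + Real.exp (16 * (κ * K) + C₀) ≤ Real.exp (16 * (κ * K) + C₀) * Real.exp v := by nlinarith
    _ = Real.exp (16 * (κ * K) + C₀ + v) := h2.symm
    _ ≤ _ := Real.exp_le_exp.2 h1

theorem main (k : ℕ) : ∃ C : ℝ, 0 < C ∧ ∀ K B : ℝ, 1 ≤ K → 1 ≤ B → ∃ a₀ : ℕ,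
    ∀ a : Fin k → ℕ, (∀ i, a₀ ≤ a i) → ∀ j : Fin k, ∀ T : Finset ℕ,
    (∀ n ∈ T, (n : ℝ) ≤ (a j : ℝ) ^ B) →
    (T.card : ℝ) ≤ K * ∏ i, ((a i).totient * Real.log (a i) / a i : ℝ) →
    Real.exp (-Real.exp (C * K)) * ∏ i, ((a i).totient : ℝ) ≤ ((Bad a T).card : ℝ) := by
  obtain ⟨C₀, hC₀, hwin⟩ := window k
  obtain ⟨c₁, hc₁, hc₁1, hc₁τ, a₁, hW⟩ := window_card k
  obtain ⟨Cb, hCb, hbt⟩ := bt
  have hfac : 0 < k.factorial := Nat.factorial_pos k
  have hfacR : (0 : ℝ) < k.factorial := by exact_mod_cast hfac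
  have htotR : (0 : ℝ) < k.factorial.totient := by exact_mod_cast Nat.totient_pos.2 hfac
  set τ : ℝ := (k.factorial.totient : ℝ) / k.factorial with hτ
  have hτ0 : 0 < τ := by positivity
  have hτ1 : τ ≤ 1 := by
    rw [hτ, div_le_one hfacR]
    exact_mod_cast Nat.totient_le _
  have hr1 : 1 ≤ Cb / c₁ := by
    rw [le_div_iff₀ hc₁]
    linarith
  set κ : ℝ := 4 * (Cb / c₁) ^ (k - 1) / τ with hκ
  have hκ1 : 1 ≤ κ := by
    rw [hκ, le_div_iff₀ hτ0]
    have : 1 ≤ (Cb / c₁) ^ (k - 1) := one_le_pow₀ hr1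
    linarith
  set v : ℝ := Real.log (2 / c₁ ^ k) with hv
  have hck : 0 < c₁ ^ k := by positivity
  have hck1 : c₁ ^ k ≤ 1 := pow_le_one₀ hc₁.le hc₁1
  have hv0 : 0 ≤ v := by
    rw [hv]
    apply Real.log_nonneg
    rw [le_div_iff₀ hck]
    linarith
  refine ⟨16 * κ + C₀ + v, by linarith, fun K B hK hB => ?_⟩
  have hκK : 1 ≤ κ * K := by nlinarith
  obtain ⟨a₂, hwin⟩ := hwin (κ * K) B hκK hB
  refine ⟨max a₁ a₂, fun a ha j T hT hTc => ?_⟩
  have ha1 : ∀ i, a₁ ≤ a i := fun i => (le_max_left _ _).trans (ha i)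
  have ha2 : ∀ i, a₂ ≤ a i := fun i => (le_max_right _ _).trans (ha i)
  have h2 : ∀ i, 2 ≤ a i := fun i => (hwin (a i) (ha2 i)).1
  have haR : ∀ i, (2 : ℝ) ≤ a i := fun i => by exact_mod_cast h2 i
  have hφ : ∀ i, (0 : ℝ) < ((a i).totient : ℝ) := fun i => by
    exact_mod_cast Nat.totient_pos.2 (by have := h2 i; omega)
  have hlog : ∀ i, 0 < Real.log (a i) := fun i => Real.log_pos (by linarith [haR i])
  set R : Fin k → Finset ℕ := fun i => W k (a i) i with hR
  set Q : Fin k → ℕ → ℕ → Prop := fun i n b => (a i * n + b).Prime with hQ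
  set u : Fin k → ℝ := fun i => Cb * a i / Real.log (a i) with hu
  have hu0 : ∀ i, 0 ≤ u i := fun i => by
    rw [hu]
    have := hlog i
    have := haR i
    positivity
  obtain ⟨G, hG, hG1, hG2⟩ := half R j Q T u (fun i n hn => by
    refine le_trans ?_ (hbt (a i) n (h2 i))
    norm_cast
    apply Finset.card_le_card
    intro b hb
    simp only [Finset.mem_filter] at hb ⊢
    refine ⟨?_, hb.2⟩
    have := hb.1
    rw [hR] at this
    simp only [W, Finset.mem_filter] at this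
    exact this.1) hu0
  -- the size of the set of vectors
  have hF : ∏ i ∈ univ.erase j, (c₁ * ((a i).totient : ℝ)) ≤ ((FF R j).card : ℝ) := by
    rw [FF_card]
    push_cast
    apply Finset.prod_le_prod
    · intro i _
      have := hφ i
      positivity
    · intro i _
      exact hW (a i) (ha1 i) i i.2
  have hFp : 0 < ∏ i ∈ univ.erase j, (c₁ * ((a i).totient : ℝ)) :=
    Finset.prod_pos (fun i _ => by have := hφ i; positivity)
  have hFpos : (0 : ℝ) < (FF R j).card := lt_of_lt_of_le hFp hF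
  have hkj : (univ.erase j : Finset (Fin k)).card = k - 1 := by
    rw [card_erase_of_mem (mem_univ j), card_univ, Fintype.card_fin]
  -- the sets that remain
  have hS : ∀ f ∈ G, ((SS Q T j f).card : ℝ) ≤ (κ * K) * ((((a j).totient : ℝ) / a j) * τ) *
      (Real.log (a j) / 2) := by
    intro f hf
    have h3 := hG2 f hf
    have h4 : ((SS Q T j f).card : ℝ) * ∏ i ∈ univ.erase j, (c₁ * ((a i).totient : ℝ)) ≤
        2 * T.card * ∏ i ∈ univ.erase j, u i :=
      (mul_le_mul_of_nonneg_left hF (Nat.cast_nonneg _)).trans h3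
    have hPu : 0 ≤ ∏ i ∈ univ.erase j, u i := Finset.prod_nonneg (fun i _ => hu0 i)
    have h5 : 2 * (T.card : ℝ) * ∏ i ∈ univ.erase j, u i ≤
        2 * (K * ∏ i, ((a i).totient * Real.log (a i) / a i : ℝ)) * ∏ i ∈ univ.erase j, u i := by
      apply mul_le_mul_of_nonneg_right _ hPu
      linarith
    have h6 : (∏ i ∈ univ.erase j, ((a i).totient * Real.log (a i) / a i : ℝ)) *
        ∏ i ∈ univ.erase j, u i = (Cb / c₁) ^ (k - 1) *
          ∏ i ∈ univ.erase j, (c₁ * ((a i).totient : ℝ)) := by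
      rw [← hkj, ← Finset.prod_const, ← Finset.prod_mul_distrib, ← Finset.prod_mul_distrib]
      apply Finset.prod_congr rfl
      intro i _
      have e1 := hlog i
      have e2 : (a i : ℝ) ≠ 0 := by linarith [haR i]
      rw [hu]
      field_simp
    have h7 : 2 * (K * ∏ i, ((a i).totient * Real.log (a i) / a i : ℝ)) * ∏ i ∈ univ.erase j, u i =
        (2 * K * ((a j).totient * Real.log (a j) / a j : ℝ) * (Cb / c₁) ^ (k - 1)) *
          ∏ i ∈ univ.erase j, (c₁ * ((a i).totient : ℝ)) := by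
      rw [← Finset.mul_prod_erase univ (fun i => ((a i).totient * Real.log (a i) / a i : ℝ))
        (mem_univ j)]
      calc _ = 2 * K * ((a j).totient * Real.log (a j) / a j : ℝ) *
            ((∏ i ∈ univ.erase j, ((a i).totient * Real.log (a i) / a i : ℝ)) *
              ∏ i ∈ univ.erase j, u i) := by ring
        _ = _ := by rw [h6]; ring
    have h8 : ((SS Q T j f).card : ℝ) ≤
        2 * K * ((a j).totient * Real.log (a j) / a j : ℝ) * (Cb / c₁) ^ (k - 1) := by
      have := h4.trans (h5.trans (le_of_eq h7))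
      exact le_of_mul_le_mul_right this hFp
    refine h8.trans (le_of_eq ?_)
    rw [hκ]
    have e2 : (a j : ℝ) ≠ 0 := by linarith [haR j]
    field_simp
    ring
  -- the count
  set E : ℝ := Real.exp (-Real.exp (16 * (κ * K) + C₀)) with hE
  have hE0 : 0 < E := Real.exp_pos _
  have hV : ∀ f ∈ G, ((a j).totient : ℝ) * c₁ * E ≤ ((WS k (a j) j (SS Q T j f)).card : ℝ) := by
    intro f hf
    have h3 := (hwin (a j) (ha2 j)).2 j j.2 (SS Q T j f) (fun n hn => hT n (mem_SS.1 hn).1)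
      (hS f hf)
    refine le_trans ?_ h3
    have e2 : (0 : ℝ) < a j := by linarith [haR j]
    have e3 : (((a j).totient : ℝ) / a j) * τ * ((a j : ℝ) / (k + 1)) * E =
        ((a j).totient : ℝ) * (τ / (k + 1)) * E := by
      field_simp
    rw [e3]
    apply mul_le_mul_of_nonneg_right _ hE0.le
    exact mul_le_mul_of_nonneg_left hc₁τ (hφ j).le
  have hcount := bad_count a h2 T j G hG (fun f => WS k (a j) j (SS Q T j f))
    (fun f => WS_sub _ _ _ _) (fun f hf b hb n hn => by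
      rw [WS, mem_filter] at hb
      exact hb.2 n hn)
  have h9 : (∑ f ∈ G, ((WS k (a j) j (SS Q T j f)).card : ℝ)) ≤ ((Bad a T).card : ℝ) := by
    exact_mod_cast hcount
  refine le_trans ?_ h9
  have h10 : (G.card : ℝ) * (((a j).totient : ℝ) * c₁ * E) ≤
      ∑ f ∈ G, ((WS k (a j) j (SS Q T j f)).card : ℝ) := by
    rw [← nsmul_eq_mul, ← Finset.sum_const]
    exact Finset.sum_le_sum hV
  refine le_trans ?_ h10
  have h11 : (∏ i ∈ univ.erase j, (c₁ * ((a i).totient : ℝ))) / 2 ≤ G.card := by linarith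
  have h12 : 0 ≤ ((a j).totient : ℝ) * c₁ * E := by
    have := hφ j
    positivity
  have h13 : (∏ i ∈ univ.erase j, (c₁ * ((a i).totient : ℝ))) / 2 * (((a j).totient : ℝ) * c₁ * E) =
      c₁ ^ k / 2 * E * ∏ i, ((a i).totient : ℝ) := by
    have e1 : c₁ ^ k * ∏ i, ((a i).totient : ℝ) = ∏ i, (c₁ * ((a i).totient : ℝ)) := by
      rw [Finset.prod_mul_distrib, Finset.prod_const, card_univ, Fintype.card_fin]
    have e2 : ∏ i, (c₁ * ((a i).totient : ℝ)) = (c₁ * ((a j).totient : ℝ)) *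
        ∏ i ∈ univ.erase j, (c₁ * ((a i).totient : ℝ)) :=
      (Finset.mul_prod_erase univ (fun i => c₁ * ((a i).totient : ℝ)) (mem_univ j)).symm
    calc _ = (c₁ * ((a j).totient : ℝ)) * (∏ i ∈ univ.erase j, (c₁ * ((a i).totient : ℝ))) *
          (E / 2) := by ring
      _ = c₁ ^ k * (∏ i, ((a i).totient : ℝ)) * (E / 2) := by rw [← e2, ← e1]
      _ = _ := by ring
  refine le_trans ?_ (mul_le_mul_of_nonneg_right h11 h12)
  rw [h13]
  apply mul_le_mul_of_nonneg_right _ (Finset.prod_nonneg (fun i _ => (hφ i).le))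
  have h14 := const_ineq κ C₀ v K (by linarith) hC₀ hv0 hK
  have h15 : c₁ ^ k / 2 = Real.exp (-v) := by
    rw [Real.exp_neg, hv, Real.exp_log (by positivity)]
    rw [inv_div]
  rw [h15, hE, ← Real.exp_add]
  apply Real.exp_le_exp.2
  linarith

end Pool.Agent.J6H61.UT
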