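import Pool.Agent.J6H61.UT.Rec

set_option autoImplicit false
set_option linter.unusedVariables false

/-! # Systems with a very large least solution -/

namespace Pool.Agent.J6H61.UT

open Finset

open scoped Classical

theorem avg_bound (k : ℕ) : ∃ c₁ Cb : ℝ, 0 < c₁ ∧ c₁ ≤ 1 ∧ 1 ≤ Cb ∧ ∃ a₁ : ℕ,
    ∀ a : Fin k → ℕ, (∀ i, a₁ ≤ a i) → (∀ i, 2 ≤ a i) → ∀ j : Fin k, ∀ T : Finset ℕ, ∀ Λ : ℝ,
    (T.card : ℝ) ≤ Λ * ∏ i, ((a i).totient * Real.log (a i) / a i : ℝ) →
    ∃ G ⊆ FF (fun i => W k (a i) i) j,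
      ∏ i ∈ univ.erase j, (c₁ * ((a i).totient : ℝ)) ≤ 2 * G.card ∧
      ∀ f ∈ G, ((SS (fun i n b => (a i * n + b).Prime) T j f).card : ℝ) ≤
        2 * Λ * ((a j).totient * Real.log (a j) / a j : ℝ) * (Cb / c₁) ^ (k - 1) := by
  obtain ⟨c₁, hc₁, hc₁1, hc₁τ, a₁, hW⟩ := window_card k
  obtain ⟨Cb, hCb, hbt⟩ := bt
  refine ⟨c₁, Cb, hc₁, hc₁1, hCb, a₁, fun a ha1 h2 j T Λ hTc => ?_⟩
  have haR : ∀ i, (2 : ℝ) ≤ a i := fun i => by exact_mod_cast h2 i
  have hφ : ∀ i, (0 : ℝ) < ((a i).totient : ℝ) := fun i => by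
    exact_mod_cast Nat.totient_pos.2 (by have := h2 i; omega)
  have hlog : ∀ i, 0 < Real.log (a i) := fun i => Real.log_pos (by linarith [haR i])
  set R : Fin k → Finset ℕ := fun i => W k (a i) i with hR
  set Q : Fin k → ℕ → ℕ → Prop := fun i n b => (a i * n + b).Prime with hQ
  set u : Fin k → ℝ := fun i => Cb * a i / Real.log (a i) with hu
  have hu0 : ∀ i, 0 ≤ u i := fun i => by
    rw [hu]
    have := hlog i
    have := haR i
    positivity
  obtain ⟨G, hG, hG1, hG2⟩ := half R j Q T u (fun i n hn => by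
    refine le_trans ?_ (hbt (a i) n (h2 i))
    norm_cast
    apply Finset.card_le_card
    intro b hb
    simp only [Finset.mem_filter] at hb ⊢
    refine ⟨?_, hb.2⟩
    have := hb.1
    rw [hR] at this
    simp only [W, Finset.mem_filter] at this
    exact this.1) hu0
  -- the size of the set of vectors
  have hF : ∏ i ∈ univ.erase j, (c₁ * ((a i).totient : ℝ)) ≤ ((FF R j).card : ℝ) := by
    rw [FF_card]
    push_cast
    apply Finset.prod_le_prod
    · intro i _
      have := hφ i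
      positivity
    · intro i _
      exact hW (a i) (ha1 i) i i.2
  have hFp : 0 < ∏ i ∈ univ.erase j, (c₁ * ((a i).totient : ℝ)) :=
    Finset.prod_pos (fun i _ => by have := hφ i; positivity)
  have hkj : (univ.erase j : Finset (Fin k)).card = k - 1 := by
    rw [card_erase_of_mem (mem_univ j), card_univ, Fintype.card_fin]
  refine ⟨G, hG, hF.trans hG1, fun f hf => ?_⟩
  have h3 := hG2 f hf
  have h4 : ((SS Q T j f).card : ℝ) * ∏ i ∈ univ.erase j, (c₁ * ((a i).totient : ℝ)) ≤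
      2 * T.card * ∏ i ∈ univ.erase j, u i :=
    (mul_le_mul_of_nonneg_left hF (Nat.cast_nonneg _)).trans h3
  have hPu : 0 ≤ ∏ i ∈ univ.erase j, u i := Finset.prod_nonneg (fun i _ => hu0 i)
  have h5 : 2 * (T.card : ℝ) * ∏ i ∈ univ.erase j, u i ≤
      2 * (Λ * ∏ i, ((a i).totient * Real.log (a i) / a i : ℝ)) * ∏ i ∈ univ.erase j, u i := by
    apply mul_le_mul_of_nonneg_right _ hPu
    linarith
  have h6 : (∏ i ∈ univ.erase j, ((a i).totient * Real.log (a i) / a i : ℝ)) *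
      ∏ i ∈ univ.erase j, u i = (Cb / c₁) ^ (k - 1) *
        ∏ i ∈ univ.erase j, (c₁ * ((a i).totient : ℝ)) := by
    rw [← hkj, ← Finset.prod_const, ← Finset.prod_mul_distrib, ← Finset.prod_mul_distrib]
    apply Finset.prod_congr rfl
    intro i _
    have e1 := hlog i
    have e2 : (a i : ℝ) ≠ 0 := by linarith [haR i]
    rw [hu]
    field_simp
  have h7 : 2 * (Λ * ∏ i, ((a i).totient * Real.log (a i) / a i : ℝ)) * ∏ i ∈ univ.erase j, u i =
      (2 * Λ * ((a j).totient * Real.log (a j) / a j : ℝ) * (Cb / c₁) ^ (k - 1)) *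
        ∏ i ∈ univ.erase j, (c₁ * ((a i).totient : ℝ)) := by
    rw [← Finset.mul_prod_erase univ (fun i => ((a i).totient * Real.log (a i) / a i : ℝ))
      (mem_univ j)]
    calc _ = 2 * Λ * ((a j).totient * Real.log (a j) / a j : ℝ) *
          ((∏ i ∈ univ.erase j, ((a i).totient * Real.log (a i) / a i : ℝ)) *
            ∏ i ∈ univ.erase j, u i) := by ring
      _ = _ := by rw [h6]; ring
  have := h4.trans (h5.trans (le_of_eq h7))
  exact le_of_mul_le_mul_right this hFp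

theorem main_rec (k : ℕ) : ∃ c : ℝ, 0 < c ∧ ∀ B : ℝ, 1 ≤ B → ∃ a₀ : ℕ,
    ∀ a : Fin k → ℕ, (∀ i, a₀ ≤ a i) → ∀ j : Fin k, ∀ T : Finset ℕ,
    (∀ n ∈ T, (n : ℝ) ≤ (a j : ℝ) ^ B) →
    (T.card : ℝ) ≤ c * (∏ i, ((a i).totient * Real.log (a i) / a i : ℝ)) *
      Real.log (Real.log (a j)) →
    c * ∏ i ∈ univ.erase j, ((a i).totient : ℝ) ≤ ((Bad a T).card : ℝ) := by
  obtain ⟨c₁, Cb, hc₁, hc₁1, hCb, a₁, havg⟩ := avg_bound k
  obtain ⟨c₂, hc₂, hrec⟩ := record k
  have hr1 : 1 ≤ Cb / c₁ := by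
    rw [le_div_iff₀ hc₁]
    linarith
  set r : ℝ := (Cb / c₁) ^ (k - 1) with hr
  have hr0 : 1 ≤ r := one_le_pow₀ hr1
  set c : ℝ := min (c₂ / (2 * r)) (c₁ ^ (k - 1) / 2) with hc
  have hc0 : 0 < c := lt_min (by positivity) (by positivity)
  refine ⟨c, hc0, fun B hB => ?_⟩
  obtain ⟨a₂, hrec⟩ := hrec B hB
  refine ⟨max a₁ a₂, fun a ha j T hT hTc => ?_⟩
  have ha1 : ∀ i, a₁ ≤ a i := fun i => (le_max_left _ _).trans (ha i)
  have ha2 : ∀ i, a₂ ≤ a i := fun i => (le_max_right _ _).trans (ha i)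
  have h2 : ∀ i, 2 ≤ a i := fun i => (hrec (a i) (ha2 i)).1
  have hll : 1 ≤ Real.log (Real.log (a j)) := (hrec (a j) (ha2 j)).2.1
  have haR : ∀ i, (2 : ℝ) ≤ a i := fun i => by exact_mod_cast h2 i
  have hφ : ∀ i, (0 : ℝ) < ((a i).totient : ℝ) := fun i => by
    exact_mod_cast Nat.totient_pos.2 (by have := h2 i; omega)
  have hlog : ∀ i, 0 < Real.log (a i) := fun i => Real.log_pos (by linarith [haR i])
  obtain ⟨G, hG, hG1, hG2⟩ := havg a ha1 h2 j T (c * Real.log (Real.log (a j))) (by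
    refine hTc.trans (le_of_eq ?_)
    ring)
  have hne : ∀ f ∈ G, (WS k (a j) j (SS (fun i n b => (a i * n + b).Prime) T j f)).Nonempty := by
    intro f hf
    apply (hrec (a j) (ha2 j)).2.2 j j.2 _ (fun n hn => hT n (mem_SS.1 hn).1)
    refine (hG2 f hf).trans ?_
    have e1 : c * (2 * r) ≤ c₂ := by
      have : c ≤ c₂ / (2 * r) := min_le_left _ _
      rwa [le_div_iff₀ (by positivity)] at this
    have e2 : 0 ≤ ((a j).totient : ℝ) / a j * Real.log (a j) * Real.log (Real.log (a j)) := by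
      have := hlog j
      positivity
    calc 2 * (c * Real.log (Real.log (a j))) * ((a j).totient * Real.log (a j) / a j : ℝ) * r =
          (c * (2 * r)) * (((a j).totient : ℝ) / a j * Real.log (a j) *
            Real.log (Real.log (a j))) := by ring
      _ ≤ c₂ * (((a j).totient : ℝ) / a j * Real.log (a j) * Real.log (Real.log (a j))) :=
          mul_le_mul_of_nonneg_right e1 e2
  have hcount := bad_count a h2 T j G hG
    (fun f => WS k (a j) j (SS (fun i n b => (a i * n + b).Prime) T j f))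
    (fun f => WS_sub _ _ _ _) (fun f hf b hb n hn => by
      rw [WS, mem_filter] at hb
      exact hb.2 n hn)
  have h9 : G.card ≤ (Bad a T).card := by
    refine le_trans ?_ hcount
    calc G.card = ∑ f ∈ G, 1 := by simp
      _ ≤ _ := Finset.sum_le_sum (fun f hf => Finset.card_pos.2 (hne f hf))
  have h10 : (G.card : ℝ) ≤ ((Bad a T).card : ℝ) := by exact_mod_cast h9
  refine le_trans ?_ h10
  have hkj : (univ.erase j : Finset (Fin k)).card = k - 1 := by
    rw [card_erase_of_mem (mem_univ j), card_univ, Fintype.card_fin]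
  have h11 : ∏ i ∈ univ.erase j, (c₁ * ((a i).totient : ℝ)) =
      c₁ ^ (k - 1) * ∏ i ∈ univ.erase j, ((a i).totient : ℝ) := by
    rw [Finset.prod_mul_distrib, Finset.prod_const, hkj]
  rw [h11] at hG1
  have h12 : c ≤ c₁ ^ (k - 1) / 2 := min_le_right _ _
  have h13 : 0 ≤ ∏ i ∈ univ.erase j, ((a i).totient : ℝ) :=
    Finset.prod_nonneg (fun i _ => (hφ i).le)
  have h14 := mul_le_mul_of_nonneg_right h12 h13
  linarith

end Pool.Agent.J6H61.UT
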