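import Pool.Agent.J6H61.UT.Cov4
import Pool.Agent.J6H61.UT.Main
import Pool.Agent.H256R2.SC.Fin3

set_option autoImplicit false
set_option linter.unusedVariables false

/-! # One class without prime values, larger sets

Adapted from `Pool/Agent/H256R2/SC/G3.lean` (starting library). -/

namespace Pool.Agent.J6H61.UT

open Finset Filter Pool.Agent.H256R2.SC Pool.Agent.H256R2.SC.G3

open scoped Classical

/-- facts for large `a` -/
theorem ev_rec (k : ℕ) (B c₁ X₀ : ℝ) (d₀ : ℕ) : ∃ a₀ : ℕ, ∀ a : ℕ, a₀ ≤ a →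
    X₀ ≤ (a : ℝ) ∧ d₀ ≤ a ∧ 400 ≤ Real.log a ∧ (k.factorial : ℝ) ≤ a ∧
    8 * ((k : ℝ) + 1) ≤ (a : ℝ) ^ (1 / 10 : ℝ) ∧
    2 * (2 * (2 * Real.log a) + (c₁ * Real.log a) ^ 2 * (2 * (B * Real.log a))) ≤
      Real.log a ^ 4 := by
  have t0 : Tendsto (fun a : ℕ => (a : ℝ)) atTop atTop := tendsto_natCast_atTop_atTop
  have t1 := Real.tendsto_log_atTop.comp t0
  have h1 : ∀ᶠ a : ℕ in atTop, X₀ ≤ (a : ℝ) := t0.eventually_ge_atTop _
  have h2 : ∀ᶠ a : ℕ in atTop, 400 ≤ Real.log a := t1.eventually_ge_atTop _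
  have h3 : ∀ᶠ a : ℕ in atTop, (k.factorial : ℝ) ≤ a := t0.eventually_ge_atTop _
  have h4 : ∀ᶠ a : ℕ in atTop, 8 * ((k : ℝ) + 1) ≤ (a : ℝ) ^ (1 / 10 : ℝ) :=
    ((tendsto_rpow_atTop (show (0 : ℝ) < 1 / 10 by norm_num)).comp t0).eventually_ge_atTop _
  have h5 : ∀ᶠ a : ℕ in atTop, 8 + 4 * c₁ ^ 2 * |B| ≤ Real.log a := t1.eventually_ge_atTop _
  obtain ⟨a₀, ha₀⟩ := eventually_atTop.1 (h1.and (h2.and (h3.and (h4.and (h5.and
    (eventually_ge_atTop d₀))))))
  refine ⟨a₀, fun a ha => ?_⟩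
  obtain ⟨g1, g2, g3, g4, g5, g6⟩ := ha₀ a ha
  refine ⟨g1, g6, g2, g3, g4, ?_⟩
  set l := Real.log a with hl
  have hl1 : 1 ≤ l := by linarith
  have hB : B ≤ |B| := le_abs_self B
  have e1 : 2 * (2 * (2 * l) + (c₁ * l) ^ 2 * (2 * (B * l))) ≤
      (8 + 4 * c₁ ^ 2 * |B|) * l ^ 3 := by
    have e2 : l ≤ l ^ 3 := by nlinarith [sq_nonneg (l - 1), sq_nonneg l]
    have e3 : c₁ ^ 2 * l ^ 3 * B ≤ c₁ ^ 2 * l ^ 3 * |B| :=
      mul_le_mul_of_nonneg_left hB (by positivity)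
    nlinarith
  calc _ ≤ (8 + 4 * c₁ ^ 2 * |B|) * l ^ 3 := e1
    _ ≤ l * l ^ 3 := mul_le_mul_of_nonneg_right g5 (by positivity)
    _ = l ^ 4 := by ring

theorem record (k : ℕ) : ∃ c : ℝ, 0 < c ∧ ∀ B : ℝ, 1 ≤ B → ∃ a₀ : ℕ, ∀ a : ℕ, a₀ ≤ a →
    2 ≤ a ∧ 1 ≤ Real.log (Real.log a) ∧
    ∀ j : ℕ, j < k → ∀ S : Finset ℕ, (∀ n ∈ S, (n : ℝ) ≤ (a : ℝ) ^ B) →
    (S.card : ℝ) ≤ c * ((a.totient : ℝ) / a * Real.log a * Real.log (Real.log a)) →
    (WS k a j S).Nonempty := by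
  obtain ⟨c₁, hc₁, X₀, hcov⟩ := covering4
  obtain ⟨C, hC0, hC⟩ := mertens_prod
  obtain ⟨D₁, hD₁⟩ := omega_bound
  have hfac : 0 < k.factorial := Nat.factorial_pos k
  have hfacR : (0 : ℝ) < k.factorial := by exact_mod_cast hfac
  have htotR : (0 : ℝ) < k.factorial.totient := by exact_mod_cast Nat.totient_pos.2 hfac
  set τ : ℝ := (k.factorial.totient : ℝ) / k.factorial with hτ
  have hτ0 : 0 < τ := by positivity
  set c' : ℝ := c₁ * Real.exp (-C) / 2 with hc'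
  have hc'0 : 0 < c' := by rw [hc']; positivity
  have hc'2 : 2 * c' * Real.exp C = c₁ := by
    have h2 : Real.exp (-C) * Real.exp C = 1 := by rw [← Real.exp_add]; simp
    calc 2 * c' * Real.exp C = c₁ * (Real.exp (-C) * Real.exp C) := by rw [hc']; ring
      _ = c₁ := by rw [h2, mul_one]
  refine ⟨c' * τ, by positivity, fun B hB => ?_⟩
  obtain ⟨a₀, hev⟩ := ev_rec k B c₁ X₀ D₁
  refine ⟨a₀, fun a ha => ?_⟩
  obtain ⟨hX0, hd1, hl, hfa, hk10, hBL⟩ := hev a ha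
  have ha2 : 2 ≤ a := by
    by_contra h
    push Not at h
    have : (a : ℝ) ≤ 1 := by exact_mod_cast (by omega : a ≤ 1)
    have h2 := Real.log_le_log_iff (x := 1) (y := (a : ℝ)) one_pos
    rcases Nat.eq_zero_or_pos a with h0 | h0
    · rw [h0] at hl; simp at hl; linarith
    · have : a = 1 := by omega
      rw [this] at hl; simp at hl; linarith
  have hapos : (0 : ℝ) < a := by
    have : 0 < a := by omega
    exact_mod_cast this
  have har1 : (1 : ℝ) ≤ a := by exact_mod_cast (by omega : 1 ≤ a)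
  obtain ⟨s1, s2, s3, s4⟩ := sizes (Real.log a) hl
  refine ⟨ha2, s3, fun j hj R hR hRc => ?_⟩
  set l := Real.log a with hldef
  have hlpos : 0 < l := by linarith
  set Ny := ⌊l / 10⌋₊ with hNy
  have hNyle : (Ny : ℝ) ≤ l / 10 := Nat.floor_le (by linarith)
  set D : ℕ := a * k.factorial with hD
  have hDpos : 0 < D := Nat.mul_pos (by omega) hfac
  have hD0 : D ≠ 0 := hDpos.ne'
  have haD : a ≤ D := Nat.le_mul_of_pos_right a hfac
  have hDr : (D : ℝ) ≤ (a : ℝ) ^ (2 : ℝ) := by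
    rw [hD, show (2 : ℝ) = ((2 : ℕ) : ℝ) by norm_num, Real.rpow_natCast]
    push_cast
    nlinarith
  have hDrpos : (0 : ℝ) < D := by exact_mod_cast hDpos
  have hlogD : Real.log D ≤ 2 * l := by
    have h1 := Real.log_le_log hDrpos hDr
    rw [Real.log_rpow hapos] at h1
    exact h1
  have htot := tot_mul a k.factorial (by omega) hfac
  rw [← hD] at htot
  have hom0 := hD₁ D (hd1.trans haD)
  have hom : (2 : ℝ) ^ D.primeFactors.card ≤ (a : ℝ) ^ (1 / 10 : ℝ) := by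
    refine hom0.trans ?_
    calc (D : ℝ) ^ (1 / 20 : ℝ) ≤ ((a : ℝ) ^ (2 : ℝ)) ^ (1 / 20 : ℝ) :=
          Real.rpow_le_rpow hDrpos.le hDr (by norm_num)
      _ = (a : ℝ) ^ (1 / 10 : ℝ) := by
          rw [← Real.rpow_mul hapos.le]; norm_num
  set pf := D.primeFactors with hpf
  set S := ((Finset.Icc 1 Ny).filter Nat.Prime) \ pf with hS
  have hSp : ∀ p ∈ S, p.Prime := by
    intro p hp
    rw [hS, Finset.mem_sdiff, Finset.mem_filter] at hp
    exact hp.1.2
  have hSle : ∀ p ∈ S, p ≤ Ny := by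
    intro p hp
    rw [hS, Finset.mem_sdiff, Finset.mem_filter, Finset.mem_Icc] at hp
    exact hp.1.1.2
  have hSd : ∀ p ∈ S, ¬ p ∣ D := by
    intro p hp hpd
    have h1 := hSp p hp
    rw [hS, Finset.mem_sdiff] at hp
    exact hp.2 (Nat.mem_primeFactors.2 ⟨h1, hpd, hD0⟩)
  set P := ∏ p ∈ S, p with hP
  have hPpos : 0 < P := Finset.prod_pos fun p hp => (hSp p hp).pos
  have hPd : Nat.Coprime P D := by
    rw [hP]
    apply Nat.Coprime.prod_left
    intro p hp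
    exact (Nat.Prime.coprime_iff_not_dvd (hSp p hp)).2 (hSd p hp)
  have hPle : P ≤ 4 ^ Ny := by
    refine le_trans ?_ (primorial_le_four_pow Ny)
    unfold primorial
    apply Finset.prod_le_prod_of_subset_of_one_le'
    · intro p hp
      rw [Finset.mem_filter, Finset.mem_range]
      exact ⟨Nat.lt_succ_of_le (hSle p hp), hSp p hp⟩
    · intro p hp _
      rw [Finset.mem_filter] at hp
      exact hp.2.one_lt.le
  have hPr : (P : ℝ) ≤ (a : ℝ) ^ (7 / 50 : ℝ) := by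
    have h1 : (P : ℝ) ≤ (4 : ℝ) ^ Ny := by exact_mod_cast hPle
    have h2 : (4 : ℝ) ^ Ny = Real.exp (Ny * Real.log 4) := by
      rw [← Real.rpow_natCast, Real.rpow_def_of_pos (by norm_num)]
      ring_nf
    have h3 : (a : ℝ) ^ (7 / 50 : ℝ) = Real.exp (l * (7 / 50)) := by
      rw [Real.rpow_def_of_pos hapos]
    rw [h3]
    rw [h2] at h1
    refine h1.trans (Real.exp_le_exp.2 ?_)
    have h4 : Real.log 4 = 2 * Real.log 2 := by
      rw [show (4 : ℝ) = 2 ^ 2 by norm_num, Real.log_pow]; push_cast; ring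
    have h5 := Real.log_two_lt_d9
    have h6 : Real.log 4 ≤ 7 / 5 := by linarith
    have h7 : 0 ≤ Real.log 4 := by rw [h4]; have := Real.log_two_gt_d9; linarith
    nlinarith
  -- the greedy step
  obtain ⟨b, hb1, hb2⟩ := greedy_all S hSp R
  set U := R.filter (fun k => ∀ p ∈ S, ¬ k ≡ b p [MOD p]) with hU
  have hUcard : (U.card : ℝ) ≤ c₁ * l := by
    refine hb2.trans ?_
    have h1 := hC Ny s1 pf (fun p hp => Nat.prime_of_mem_primeFactors hp)
    rw [← totient_div D hD0] at h1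
    have h2 : Real.exp C / Real.log Ny ≤ 2 * Real.exp C / Real.log l := by
      rw [div_le_div_iff₀ (by linarith) (by linarith)]
      have := Real.exp_pos C
      nlinarith
    have h3 : 0 ≤ ∏ p ∈ S, (1 - 1 / (p : ℝ)) := by
      apply Finset.prod_nonneg
      intro p hp
      have : (1 : ℝ) < p := by exact_mod_cast (hSp p hp).one_lt
      have : 1 / (p : ℝ) < 1 := by rw [div_lt_one (by linarith)]; exact this
      linarith
    have hll : 0 < Real.log l := by linarith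
    have h4 : (R.card : ℝ) ≤ c' * ((D.totient : ℝ) / D) * l * Real.log l := by
      refine hRc.trans ?_
      have e1 : c' * τ * ((a.totient : ℝ) / a * l * Real.log l) =
          (c' * (l * Real.log l)) * ((a.totient : ℝ) / a * τ) := by ring
      have e2 : c' * ((D.totient : ℝ) / D) * l * Real.log l =
          (c' * (l * Real.log l)) * ((D.totient : ℝ) / D) := by ring
      rw [e1, e2]
      exact mul_le_mul_of_nonneg_left htot (by positivity)
    calc (R.card : ℝ) * ∏ p ∈ S, (1 - 1 / (p : ℝ)) ≤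
          (c' * ((D.totient : ℝ) / D) * l * Real.log l) * ∏ p ∈ S, (1 - 1 / (p : ℝ)) :=
          mul_le_mul_of_nonneg_right h4 h3
      _ = (c' * l * Real.log l) * ((∏ p ∈ S, (1 - 1 / (p : ℝ))) * ((D.totient : ℝ) / D)) := by
          ring
      _ ≤ (c' * l * Real.log l) * (2 * Real.exp C / Real.log l) := by
          apply mul_le_mul_of_nonneg_left (h1.trans h2)
          positivity
      _ = (2 * c' * Real.exp C) * l := by
          field_simp
      _ = c₁ * l := by rw [hc'2]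
  -- the residue class modulo the small primes
  obtain ⟨b0, hb0, hb0'⟩ := crt_small S hSp (fun p => b p * a)
  rw [← hP] at hb0
  -- residues modulo the large primes
  have hl4 : l ≤ l ^ 4 := by
    have : 1 ≤ l ^ 3 := one_le_pow₀ (by linarith)
    nlinarith
  have hinv : ∀ p : ℕ, p.Prime → l ^ 4 < p → ∃ u : ℤ, (p : ℤ) ∣ P * u - 1 := by
    intro p hp hpl
    have h1 : Nat.Coprime P p := by
      rw [hP]
      apply Nat.Coprime.prod_left
      intro r hr
      rw [Nat.coprime_primes (hSp r hr) hp]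
      rintro rfl
      have h2 : (r : ℝ) ≤ l / 10 := (by exact_mod_cast hSle r hr : (r : ℝ) ≤ Ny).trans hNyle
      linarith
    obtain ⟨u, w, huw⟩ := Nat.isCoprime_iff_coprime.2 h1
    refine ⟨u, -w, ?_⟩
    linear_combination huw
  choose! inv hinv using hinv
  set res : ℕ → {k // k ∈ U} → ℤ := fun p k => -((b0 : ℤ) + (k.1 : ℤ) * a) * inv p with hres
  -- the excluded primes
  set Ex : Finset ℕ := (U ×ˢ U).biUnion (fun z => ((z.1 : ℤ) - (z.2 : ℤ)).natAbs.primeFactors) with hEx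
  have hExc : (Ex.card : ℝ) ≤ (c₁ * l) ^ 2 * (2 * (B * l)) := by
    have h1 : (Ex.card : ℝ) ≤ ∑ z ∈ U ×ˢ U,
        ((((z.1 : ℤ) - (z.2 : ℤ)).natAbs.primeFactors.card : ℕ) : ℝ) := by
      rw [← Nat.cast_sum]
      exact Nat.cast_le.2 Finset.card_biUnion_le
    have h2 : ∀ z ∈ U ×ˢ U, ((((z.1 : ℤ) - (z.2 : ℤ)).natAbs.primeFactors.card : ℕ) : ℝ) ≤
        2 * (B * l) := by
      intro z hz
      rw [mem_product] at hz
      by_cases h0 : ((z.1 : ℤ) - (z.2 : ℤ)).natAbs = 0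
      · rw [h0]
        simp
        positivity
      · refine (card_primeFactors_le _ h0).trans ?_
        apply mul_le_mul_of_nonneg_left _ (by norm_num)
        have h3 : (((((z.1 : ℤ) - (z.2 : ℤ)).natAbs : ℕ)) : ℝ) ≤ (a : ℝ) ^ B := by
          have e1 := hR z.1 (mem_filter.1 hz.1).1
          have e2 := hR z.2 (mem_filter.1 hz.2).1
          have e3 : (((z.1 : ℤ) - (z.2 : ℤ)).natAbs) ≤ max z.1 z.2 := by omega
          have e4 : ((max z.1 z.2 : ℕ) : ℝ) ≤ (a : ℝ) ^ B := by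
            rcases max_choice z.1 z.2 with h | h <;> rw [h]
            · exact e1
            · exact e2
          have e5 : ((((z.1 : ℤ) - (z.2 : ℤ)).natAbs : ℕ) : ℝ) ≤ ((max z.1 z.2 : ℕ) : ℝ) := by
            exact_mod_cast e3
          exact e5.trans e4
        have h4 := Real.log_le_log (by
          have : 0 < ((z.1 : ℤ) - (z.2 : ℤ)).natAbs := Nat.pos_of_ne_zero h0
          exact_mod_cast this) h3
        rw [Real.log_rpow hapos] at h4
        exact h4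
    have h3 : ((U ×ˢ U).card : ℝ) ≤ (c₁ * l) ^ 2 := by
      rw [card_product]
      push_cast
      have : (0 : ℝ) ≤ U.card := Nat.cast_nonneg _
      nlinarith
    calc (Ex.card : ℝ) ≤ ∑ z ∈ U ×ˢ U, 2 * (B * l) := h1.trans (Finset.sum_le_sum h2)
      _ = ((U ×ˢ U).card : ℝ) * (2 * (B * l)) := by rw [Finset.sum_const, nsmul_eq_mul]
      _ ≤ _ := mul_le_mul_of_nonneg_right h3 (by positivity)
  have hBc : 2 * (((pf ∪ Ex).card : ℕ) : ℝ) ≤ l ^ 4 := by
    have h1 : (((pf ∪ Ex).card : ℕ) : ℝ) ≤ pf.card + Ex.card := by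
      exact_mod_cast Finset.card_union_le _ _
    have h2 := card_primeFactors_le D hD0
    rw [← hpf] at h2
    refine le_trans ?_ hBL
    linarith
  -- the set of candidates
  have hk1 : (1 : ℝ) ≤ (k : ℝ) + 1 := by
    have : (0 : ℝ) ≤ k := Nat.cast_nonneg k
    linarith
  have hPr0 : (0 : ℝ) < P := by exact_mod_cast hPpos
  set X' : ℝ := (a : ℝ) / (k + 1) with hX'
  have hX'0 : 0 < X' := by positivity
  set m0 : ℕ := ⌊((j : ℝ) + 1) * X' / P⌋₊ + 1 with hm0
  set Ln : ℕ := ⌊X' / P - 2⌋₊ with hLn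
  set 𝒜 := (Finset.Ico (m0 : ℤ) (m0 + Ln)).filter
    (fun x => IsCoprime ((b0 : ℤ) + P * x) (D : ℤ)) with h𝒜
  -- size of the interval
  have hdP : (a : ℝ) ^ (43 / 50 : ℝ) ≤ a / P := by
    rw [le_div_iff₀ hPr0]
    calc (a : ℝ) ^ (43 / 50 : ℝ) * P ≤ (a : ℝ) ^ (43 / 50 : ℝ) * (a : ℝ) ^ (7 / 50 : ℝ) :=
          mul_le_mul_of_nonneg_left hPr (by positivity)
      _ = a := by rw [← Real.rpow_add hapos]; norm_num
  have hbig : ∀ e : ℝ, 1 / 50 ≤ e → 16 ≤ (a : ℝ) ^ e := by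
    intro e he
    rw [Real.rpow_def_of_pos hapos]
    have h1 : (8 : ℝ) ≤ l * e := by nlinarith
    have h2 := Real.exp_le_exp.2 h1
    have h3 : (16 : ℝ) ≤ Real.exp 8 := by
      have h4 : Real.exp 8 = Real.exp 1 ^ 8 := by
        rw [← Real.exp_nat_mul]; norm_num
      have h5 := Real.exp_one_gt_d9
      rw [h4]
      calc (16 : ℝ) ≤ 2 ^ 8 := by norm_num
        _ ≤ Real.exp 1 ^ 8 := pow_le_pow_left₀ (by norm_num) (by linarith) 8
    exact h3.trans h2
  have hX'P : 8 * (a : ℝ) ^ (38 / 50 : ℝ) ≤ X' / P := by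
    have e1 : X' / P = (a / P) / (k + 1) := by rw [hX']; field_simp
    rw [e1, le_div_iff₀ (by linarith)]
    refine le_trans ?_ hdP
    have e2 : (a : ℝ) ^ (43 / 50 : ℝ) = (a : ℝ) ^ (38 / 50 : ℝ) * (a : ℝ) ^ (1 / 10 : ℝ) := by
      rw [← Real.rpow_add hapos]; norm_num
    rw [e2]
    have e3 : 0 < (a : ℝ) ^ (38 / 50 : ℝ) := by positivity
    nlinarith
  have hX'P16 : 16 ≤ X' / P := by
    have := hbig (38 / 50) (by norm_num)
    linarith
  have hLr : X' / P / 4 ≤ Ln := by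
    have h1 : X' / P - 2 < Ln + 1 := Nat.lt_floor_add_one _
    linarith
  have hLr2 : (Ln : ℝ) ≤ X' / P - 2 := Nat.floor_le (by linarith)
  have hN : (a : ℝ) ^ (1 / 2 : ℝ) ≤ Ln * ((Nat.totient D : ℕ) : ℝ) / D := by
    have h1 : (a : ℝ) ^ (-(1 / 10) : ℝ) ≤ (Nat.totient D : ℝ) / D := by
      rw [totient_div D hD0]
      refine le_trans ?_ (prod_ge_half D)
      rw [Real.rpow_neg hapos.le, one_div_pow, ← one_div]
      exact one_div_le_one_div_of_le (by positivity) hom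
    have h2 : (a : ℝ) ^ (38 / 50 : ℝ) ≤ Ln := by
      have : 0 < (a : ℝ) ^ (38 / 50 : ℝ) := by positivity
      linarith
    have h4 : (a : ℝ) ^ (38 / 50 : ℝ) * (a : ℝ) ^ (-(1 / 10) : ℝ) =
        (a : ℝ) ^ (8 / 50 : ℝ) * (a : ℝ) ^ (1 / 2 : ℝ) := by
      rw [← Real.rpow_add hapos, ← Real.rpow_add hapos]
      norm_num
    have h3 := hbig (8 / 50) (by norm_num)
    have h5 : (0 : ℝ) < (a : ℝ) ^ (1 / 2 : ℝ) := by positivity
    calc (a : ℝ) ^ (1 / 2 : ℝ) ≤ (a : ℝ) ^ (8 / 50 : ℝ) * (a : ℝ) ^ (1 / 2 : ℝ) := by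
          nlinarith
      _ = (a : ℝ) ^ (38 / 50 : ℝ) * (a : ℝ) ^ (-(1 / 10) : ℝ) := h4.symm
      _ ≤ Ln * ((Nat.totient D : ℝ) / D) :=
          mul_le_mul h2 h1 (by positivity) (by positivity)
      _ = _ := by ring
  -- apply the covering theorem
  obtain ⟨x, hxA, hx⟩ := hcov a hX0 (pf ∪ Ex) hBc {k // k ∈ U}
    (by rw [Fintype.card_coe]; exact hUcard) res (by
      intro p hp hpl _ hpB k k' hkk' hdvd
      rw [mem_union, not_or] at hpB
      have hpd : ¬ p ∣ a := fun h => hpB.1 (Nat.mem_primeFactors.2 ⟨hp, h.mul_right _, hD0⟩)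
      have h1 := hinv p hp hpl
      have hpi : Prime (p : ℤ) := Nat.prime_iff_prime_int.1 hp
      have h2 : res p k - res p k' = -(((k.1 : ℤ) - k'.1) * a * inv p) := by
        simp only [hres]; ring
      rw [h2, dvd_neg] at hdvd
      rcases hpi.dvd_or_dvd hdvd with h3 | h3
      · rcases hpi.dvd_or_dvd h3 with h4 | h4
        · -- p | k - k'
          have h5 : ((k.1 : ℤ) - k'.1).natAbs ≠ 0 := by
            intro h0
            apply hkk'
            apply Subtype.ext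
            omega
          apply hpB.2
          rw [hEx, mem_biUnion]
          exact ⟨(k.1, k'.1), mem_product.2 ⟨k.2, k'.2⟩,
            Nat.mem_primeFactors.2 ⟨hp, Int.natCast_dvd.1 h4, h5⟩⟩
        · exact hpd (by exact_mod_cast h4)
      · -- p | inv p
        have h6 : (p : ℤ) ∣ 1 := by
          have h7 : (p : ℤ) ∣ P * inv p := Dvd.dvd.mul_left h3 _
          have := dvd_sub h7 h1
          simpa using this
        exact hpi.not_isUnit (isUnit_of_dvd_one h6))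
    𝒜 (Ln * ((Nat.totient D : ℕ) : ℝ) / D) (2 ^ pf.card) hN (by positivity) hom (by
      intro q hq _ hqp r
      have hqpos : 0 < q := Nat.pos_of_ne_zero hq.ne_zero
      have hqd : Nat.Coprime q D := by
        rw [Nat.coprime_iff_gcd_eq_one]
        by_contra hg
        obtain ⟨p, hp, hpg⟩ := Nat.exists_prime_and_dvd hg
        have h1 : p ∣ q := hpg.trans (Nat.gcd_dvd_left _ _)
        have h2 : p ∣ D := hpg.trans (Nat.gcd_dvd_right _ _)
        exact (hqp p (Nat.mem_primeFactors.2 ⟨hp, h1, hqpos.ne'⟩)).2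
          (mem_union_left _ (Nat.mem_primeFactors.2 ⟨hp, h2, hD0⟩))
      exact count_main D P q hD0 hqpos hPd hqd b0 m0 r Ln)
  rw [h𝒜, Finset.mem_filter, Finset.mem_Ico] at hxA
  obtain ⟨⟨hx1, hx2⟩, hxc⟩ := hxA
  have hx0 : 0 ≤ x := by
    have : (0 : ℤ) ≤ m0 := by positivity
    omega
  obtain ⟨xn, rfl⟩ := Int.eq_ofNat_of_zero_le hx0
  set y := b0 + P * xn with hy
  have hyz : ((y : ℕ) : ℤ) = (b0 : ℤ) + P * (xn : ℤ) := by rw [hy]; push_cast; ring
  have hxlow : m0 ≤ xn := by exact_mod_cast hx1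
  have hxup : xn + 1 ≤ m0 + Ln := by
    have : (xn : ℤ) < ((m0 + Ln : ℕ) : ℤ) := by push_cast; exact hx2
    have : xn < m0 + Ln := by exact_mod_cast this
    omega
  have hylow : ((j : ℝ) + 1) * X' < y := by
    have h1 : ((j : ℝ) + 1) * X' / P < (m0 : ℝ) := by
      rw [hm0]
      push_cast
      exact Nat.lt_floor_add_one _
    rw [div_lt_iff₀ hPr0] at h1
    have h2 : (m0 : ℝ) ≤ xn := by exact_mod_cast hxlow
    have h3 : (y : ℝ) = b0 + P * xn := by rw [hy]; push_cast; ring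
    rw [h3]
    have : (0 : ℝ) ≤ b0 := Nat.cast_nonneg _
    nlinarith
  have hyup : (y : ℝ) ≤ ((j : ℝ) + 1) * X' + X' := by
    have h1 : (m0 : ℝ) ≤ ((j : ℝ) + 1) * X' / P + 1 := by
      rw [hm0]
      push_cast
      have := Nat.floor_le (show 0 ≤ ((j : ℝ) + 1) * X' / P by positivity)
      linarith
    have h2 : (xn : ℝ) + 1 ≤ m0 + Ln := by exact_mod_cast hxup
    have h3 : (y : ℝ) = b0 + P * xn := by rw [hy]; push_cast; ring
    have h4 : (b0 : ℝ) ≤ P := by exact_mod_cast hb0.le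
    have h5 : (y : ℝ) ≤ P * (xn + 1) := by rw [h3]; linarith
    have h6 : (xn : ℝ) + 1 ≤ ((j : ℝ) + 1) * X' / P + X' / P := by linarith
    calc (y : ℝ) ≤ P * (xn + 1) := h5
      _ ≤ P * (((j : ℝ) + 1) * X' / P + X' / P) := mul_le_mul_of_nonneg_left h6 hPr0.le
      _ = _ := by field_simp
  have hycop : Nat.Coprime y D := by
    rw [← Nat.isCoprime_iff_coprime, hyz]
    exact hxc
  have hX'y : X' < y := by
    have : (0 : ℝ) ≤ j := Nat.cast_nonneg j
    nlinarith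
  have hya : (y : ℝ) ≤ a := by
    have hjk : (j : ℝ) + 1 ≤ k := by exact_mod_cast hj
    have e1 : ((k : ℝ) + 1) * X' = a := by rw [hX']; field_simp
    nlinarith
  have hsm : ∀ r : ℝ, r ≤ (a : ℝ) ^ (1 / 10 : ℝ) → r < y := by
    intro r hr
    refine lt_of_le_of_lt hr (lt_of_le_of_lt ?_ hX'y)
    rw [hX', le_div_iff₀ (by linarith)]
    have e1 : (a : ℝ) = (a : ℝ) ^ (8 / 10 : ℝ) * ((a : ℝ) ^ (1 / 10 : ℝ) * (a : ℝ) ^ (1 / 10 : ℝ)) := by
      rw [← Real.rpow_add hapos, ← Real.rpow_add hapos]; norm_num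
    have e2 := hbig (8 / 10) (by norm_num)
    have e3 : 0 < (a : ℝ) ^ (1 / 10 : ℝ) := by positivity
    have e4 : (a : ℝ) ^ (1 / 10 : ℝ) * (k + 1) ≤ (a : ℝ) ^ (1 / 10 : ℝ) * (a : ℝ) ^ (1 / 10 : ℝ) := by
      apply mul_le_mul_of_nonneg_left _ e3.le
      linarith
    have e5 : 0 < (a : ℝ) ^ (1 / 10 : ℝ) * (a : ℝ) ^ (1 / 10 : ℝ) := by positivity
    calc (a : ℝ) ^ (1 / 10 : ℝ) * (k + 1) ≤ (a : ℝ) ^ (1 / 10 : ℝ) * (a : ℝ) ^ (1 / 10 : ℝ) := e4
      _ ≤ (a : ℝ) ^ (8 / 10 : ℝ) * ((a : ℝ) ^ (1 / 10 : ℝ) * (a : ℝ) ^ (1 / 10 : ℝ)) := by nlinarith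
      _ = a := e1.symm
  refine ⟨y, ?_⟩
  rw [WS, mem_filter, W, mem_filter, mem_Icc]
  refine ⟨⟨⟨?_, by exact_mod_cast hya⟩, hylow, hyup, hycop⟩, ?_⟩
  · have : (0 : ℝ) < y := hX'0.trans hX'y
    have : 0 < y := by exact_mod_cast this
    omega
  intro n hn hpr
  have hyn : (y : ℝ) ≤ ((a * n + y : ℕ) : ℝ) := by
    push_cast
    have : (0 : ℝ) ≤ (a : ℝ) * n := by positivity
    linarith
  by_cases hkU : n ∈ U
  · obtain ⟨r, hr, hrl, hrX, hrB, hrd⟩ := hx ⟨n, hkU⟩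
    have h1 := hinv r hr hrl
    have h2 : (r : ℤ) ∣ ((a * n + y : ℕ) : ℤ) := by
      have e : ((a * n + y : ℕ) : ℤ) = P * ((xn : ℤ) - res r ⟨n, hkU⟩) -
          ((b0 : ℤ) + n * a) * (P * inv r - 1) := by
        simp only [hres]
        push_cast
        rw [hyz]
        ring
      rw [e]
      exact dvd_sub (Dvd.dvd.mul_left hrd _) (Dvd.dvd.mul_left h1 _)
    have h3 : r ∣ a * n + y := by exact_mod_cast h2
    have h4 : r = a * n + y := (Nat.prime_dvd_prime_iff_eq hr hpr).1 h3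
    have h5 := hsm r hrX
    rw [h4] at h5
    linarith
  · have h1 : ∃ r ∈ S, n ≡ b r [MOD r] := by
      by_contra hcon
      push Not at hcon
      exact hkU (Finset.mem_filter.2 ⟨hn, hcon⟩)
    obtain ⟨r, hr, hkr⟩ := h1
    have h2 : r ∣ b0 + b r * a := hb0' r hr
    have h3 : r ∣ P := Finset.dvd_prod_of_mem _ hr
    have h4 : a * n + y ≡ 0 [MOD r] := by
      rw [hy]
      have e0 : a * n + (b0 + P * xn) = b0 + P * xn + n * a := by ring
      rw [e0]
      have e1 : b0 + P * xn + n * a ≡ b0 + 0 + b r * a [MOD r] := by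
        apply Nat.ModEq.add
        · apply Nat.ModEq.add_left
          exact Nat.modEq_zero_iff_dvd.2 (Dvd.dvd.mul_right h3 _)
        · exact hkr.mul_right a
      refine e1.trans ?_
      rw [add_zero]
      exact Nat.modEq_zero_iff_dvd.2 h2
    have h5 : r ∣ a * n + y := Nat.modEq_zero_iff_dvd.1 h4
    have h6 : r = a * n + y := (Nat.prime_dvd_prime_iff_eq (hSp r hr) hpr).1 h5
    have h7 : (r : ℝ) ≤ (a : ℝ) ^ (1 / 10 : ℝ) := by
      have e1 : (r : ℝ) ≤ l / 10 := (by exact_mod_cast hSle r hr : (r : ℝ) ≤ Ny).trans hNyle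
      refine e1.trans ?_
      rw [Real.rpow_def_of_pos hapos]
      have := Real.add_one_le_exp (l * (1 / 10))
      linarith
    have h8 := hsm r h7
    rw [h6] at h8
    linarith

end Pool.Agent.J6H61.UT
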