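import Mathlib

set_option autoImplicit false
set_option linter.unusedVariables false

/-! # The largest coefficient exceeds the product of the logarithms -/

namespace Pool.Agent.J6H61.UT

open Finset Filter

theorem size2 (k : ℕ) (K : ℝ) : ∃ a₀ : ℕ, ∀ a : Fin k → ℕ, (∀ i, a₀ ≤ a i) →
    ∀ j : Fin k, (∀ i, a i ≤ a j) → (1 : ℝ) ≤ a j ∧
      K * (∏ i, ((a i).totient * Real.log (a i) / a i : ℝ)) * Real.log (Real.log (a j)) ≤ a j := by
  have h1 : ∀ᶠ x : ℝ in atTop, |K| * Real.log x ^ (k + 1) ≤ x := by
    have := (isLittleO_log_rpow_rpow_atTop ((k + 1 : ℕ) : ℝ) (show (0:ℝ) < 1 by norm_num)).def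
      (show (0:ℝ) < 1 / (|K| + 1) by positivity)
    filter_upwards [this, eventually_ge_atTop (1:ℝ)] with x hx hx1
    have hl := Real.log_nonneg hx1
    have e1 : ‖Real.log x ^ ((k + 1 : ℕ) : ℝ)‖ = Real.log x ^ (k + 1) := by
      rw [Real.rpow_natCast, Real.norm_eq_abs, abs_of_nonneg (by positivity)]
    have e2 : ‖x ^ (1 : ℝ)‖ = x := by
      rw [Real.rpow_one, Real.norm_eq_abs, abs_of_nonneg (by linarith)]
    rw [e1, e2, one_div, ← div_eq_inv_mul, le_div_iff₀ (by positivity)] at hx
    have : 0 ≤ Real.log x ^ (k + 1) := by positivity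
    nlinarith
  obtain ⟨x₀, hx₀⟩ := eventually_atTop.1 h1
  obtain ⟨a₀, ha₀⟩ := exists_nat_ge (max x₀ 3)
  refine ⟨a₀, fun a ha j hj => ?_⟩
  have haR : ∀ i, max x₀ 3 ≤ (a i : ℝ) := fun i => ha₀.trans (by exact_mod_cast ha i)
  have h3 : ∀ i, (3 : ℝ) ≤ a i := fun i => (le_max_right _ _).trans (haR i)
  refine ⟨by linarith [h3 j], ?_⟩
  have h4 : ∏ i, ((a i).totient * Real.log (a i) / a i : ℝ) ≤ Real.log (a j) ^ k := by
    calc ∏ i, ((a i).totient * Real.log (a i) / a i : ℝ) ≤ ∏ i : Fin k, Real.log (a j) := by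
          apply Finset.prod_le_prod
          · intro i _
            have := Real.log_nonneg (show (1 : ℝ) ≤ a i by linarith [h3 i])
            positivity
          · intro i _
            have e1 : (0 : ℝ) < a i := by linarith [h3 i]
            rw [div_le_iff₀ e1]
            have e2 : ((a i).totient : ℝ) ≤ a i := by exact_mod_cast Nat.totient_le _
            have e3 : Real.log (a i) ≤ Real.log (a j) :=
              Real.log_le_log e1 (by exact_mod_cast hj i)
            have e4 := Real.log_nonneg (show (1 : ℝ) ≤ a i by linarith [h3 i])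
            calc ((a i).totient : ℝ) * Real.log (a i) ≤ a i * Real.log (a j) :=
                  mul_le_mul e2 e3 e4 e1.le
              _ = Real.log (a j) * a i := by ring
      _ = Real.log (a j) ^ k := by rw [Finset.prod_const, card_univ, Fintype.card_fin]
  have h5 : 0 ≤ ∏ i, ((a i).totient * Real.log (a i) / a i : ℝ) := by
    apply Finset.prod_nonneg
    intro i _
    have := Real.log_nonneg (show (1 : ℝ) ≤ a i by linarith [h3 i])
    positivity
  have hl1 : 1 ≤ Real.log (a j) := by
    rw [Real.le_log_iff_exp_le (by linarith [h3 j])]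
    have := Real.exp_one_lt_d9
    linarith [h3 j]
  have h6 : 0 ≤ Real.log (Real.log (a j)) := Real.log_nonneg hl1
  have h7 : Real.log (Real.log (a j)) ≤ Real.log (a j) := by
    have := Real.log_le_sub_one_of_pos (show 0 < Real.log (a j) by linarith)
    linarith
  calc K * (∏ i, ((a i).totient * Real.log (a i) / a i : ℝ)) * Real.log (Real.log (a j)) ≤
        |K| * (∏ i, ((a i).totient * Real.log (a i) / a i : ℝ)) * Real.log (Real.log (a j)) := by
        apply mul_le_mul_of_nonneg_right _ h6
        exact mul_le_mul_of_nonneg_right (le_abs_self K) h5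
    _ ≤ |K| * (Real.log (a j) ^ k) * Real.log (a j) := by
        apply mul_le_mul _ h7 h6 (by positivity)
        exact mul_le_mul_of_nonneg_left h4 (abs_nonneg K)
    _ = |K| * Real.log (a j) ^ (k + 1) := by ring
    _ ≤ a j := hx₀ _ ((le_max_left _ _).trans (haR j))

end Pool.Agent.J6H61.UT
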